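import Pool.Agent.H703R3.MBBody

/-!
# Billiards inside the bodies of revolution `‖x‖² + x_k⁴ ≤ 1` preserve an angular momentum
-/

set_option autoImplicit false

open Set Filter Topology
open scoped RealInnerProductSpace ContDiff

namespace Q52.Bil

open Pool.Agent.H703R3.MB

variable {n : ℕ}

/-- the function `‖x‖² + x_k⁴` -/
noncomputable def fi (k : Fin n) (x : Euc n) : ℝ := ‖x‖ ^ 2 + (x k) ^ 4

/-- its gradient -/
noncomputable def gi (k : Fin n) (x : Euc n) : Euc n :=
  (2 : ℝ) • x + (4 * (x k) ^ 3) • EuclideanSpace.single k (1 : ℝ)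

theorem gi_inner (k : Fin n) (x w : Euc n) :
    ⟪gi k x, w⟫ = 2 * ⟪x, w⟫ + 4 * (x k) ^ 3 * w k := by
  unfold gi
  rw [inner_add_left, real_inner_smul_left, real_inner_smul_left, EuclideanSpace.inner_single_left]
  simp

theorem goodi (k : Fin n) : Good (fi k) (gi k) where
  cd := by
    unfold fi
    have h1 : ContDiff ℝ ∞ fun x : Euc n => ‖x‖ ^ 2 := contDiff_norm_sq ℝ
    have h2 : ContDiff ℝ ∞ fun x : Euc n => (x k) ^ 4 := by fun_prop
    exact h1.add h2
  line := by
    intro x w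
    refine ⟨‖w‖ ^ 2 + 6 * (x k) ^ 2 * (w k) ^ 2, 4 * x k * (w k) ^ 3, (w k) ^ 4, ?_, ?_, ?_⟩
    · nlinarith [mul_nonneg (sq_nonneg (x k)) (sq_nonneg (w k))]
    · have : 0 ≤ (w k) ^ 2 * ((2 * x k + w k) ^ 2 + 2 * (x k) ^ 2) := by positivity
      nlinarith
    · intro s
      unfold fi
      rw [gi_inner]
      have h1 : ‖x + s • w‖ ^ 2 = ‖x‖ ^ 2 + 2 * s * ⟪x, w⟫ + s ^ 2 * ‖w‖ ^ 2 := by
        rw [norm_add_sq_real, real_inner_smul_right, norm_smul, mul_pow, Real.norm_eq_abs, sq_abs]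
        ring
      rw [h1]
      simp only [PiLp.add_apply, PiLp.smul_apply, smul_eq_mul]
      ring
  lower := by
    intro x
    unfold fi
    nlinarith [sq_nonneg ((x k) ^ 2)]
  zero := by simp [fi]
  pos := by
    intro x hx
    rw [gi_inner, real_inner_self_eq_norm_sq]
    have h0 : 0 < ‖x‖ := by
      refine norm_pos_iff.2 ?_
      rintro rfl
      simp [fi] at hx
    have : 0 ≤ 4 * (x k) ^ 3 * x k := by
      have h1 : 4 * (x k) ^ 3 * x k = 4 * ((x k) ^ 2) ^ 2 := by ring
      rw [h1]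
      positivity
    positivity

theorem not_elli {j k : Fin n} (hjk : j ≠ k) : ¬ IsEllipsoid (Body (fi k)) := by
  refine (goodi k).not_isEllipsoid (p := EuclideanSpace.single j (1 : ℝ))
    (q := EuclideanSpace.single k (1 : ℝ)) ?_ ?_ ?_
  · intro x
    unfold fi
    rw [norm_neg]
    simp
    ring
  · simp
  · intro a b
    unfold fi
    rw [norm_add_sq_real, norm_smul, norm_smul, real_inner_smul_left,
      real_inner_smul_right, EuclideanSpace.inner_single_left]
    simp [hjk, hjk.symm]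

/-! ### The billiard map inside a body `f ≤ 1` -/

section General

variable {f : Euc n → ℝ} {g : Euc n → Euc n}

/-- the reversed line -/
def rev (l : Euc n × Euc n) : Euc n × Euc n := (l.1, -l.2)

theorem rev_rev (l : Euc n × Euc n) : rev (rev l) = l := by simp [rev]

theorem mem_lines (h : Good f g) (l : Euc n × Euc n) :
    l ∈ lines (Body f) ↔ ‖l.2‖ = 1 ∧ ⟪l.1, l.2⟫ = 0 ∧ ∃ t : ℝ, f (l.1 + t • l.2) < 1 := by
  unfold lines
  rw [h.interior_body]
  rfl

theorem rev_mem (h : Good f g) {l : Euc n × Euc n} (hl : l ∈ lines (Body f)) :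
    rev l ∈ lines (Body f) := by
  rw [mem_lines h] at hl ⊢
  obtain ⟨h1, h2, t, h3⟩ := hl
  refine ⟨by simpa [rev] using h1, by simpa [rev] using h2, -t, ?_⟩
  simpa [rev] using h3

/-- a point of the line where it leaves the body is the exit point -/
theorem exit_eq (h : Good f g) {l : Euc n × Euc n} {b : ℝ}
    (h1 : f (l.1 + b • l.2) = 1) (h2 : 0 < ⟪g (l.1 + b • l.2), l.2⟫) :
    exitPoint (Body f) l = l.1 + b • l.2 := by
  unfold exitPoint
  have h3 : IsGreatest {t : ℝ | l.1 + t • l.2 ∈ Body f} b := by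
    refine ⟨h1.le, ?_⟩
    intro t ht
    by_contra hlt
    push Not at hlt
    have h4 := h.ge (l.1 + b • l.2) (l.1 + t • l.2)
    have h5 : l.1 + t • l.2 - (l.1 + b • l.2) = (t - b) • l.2 := by
      rw [sub_smul]
      abel
    rw [h5, real_inner_smul_right, h1] at h4
    have h6 : 0 < (t - b) * ⟪g (l.1 + b • l.2), l.2⟫ := mul_pos (by linarith) h2
    have h7 : f (l.1 + t • l.2) ≤ 1 := ht
    have h8 : 0 ≤ ‖(t - b) • l.2‖ ^ 2 := by positivity
    linarith
  rw [h3.csSup_eq]

/-- every line of the phase space leaves the body transversally -/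
theorem exists_exit (h : Good f g) {l : Euc n × Euc n} (hl : l ∈ lines (Body f)) :
    ∃ b : ℝ, f (l.1 + b • l.2) = 1 ∧ 0 < ⟪g (l.1 + b • l.2), l.2⟫ := by
  rw [mem_lines h] at hl
  obtain ⟨hv, hp, t0, ht0⟩ := hl
  have hc : Continuous fun t : ℝ => f (l.1 + t • l.2) := by
    have := h.continuous
    fun_prop
  have hbig : 1 < f (l.1 + (|t0| + 2) • l.2) := by
    have h1 := h.lower (l.1 + (|t0| + 2) • l.2)
    have h2 : ‖l.1 + (|t0| + 2) • l.2‖ ^ 2 = ‖l.1‖ ^ 2 + (|t0| + 2) ^ 2 := by
      rw [norm_add_sq_real, real_inner_smul_right, hp, norm_smul, hv, Real.norm_eq_abs, mul_one,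
        sq_abs]
      ring
    rw [h2] at h1
    have h3 : 0 ≤ |t0| := abs_nonneg t0
    have h4 : 0 ≤ ‖l.1‖ ^ 2 := by positivity
    nlinarith
  have hle : t0 ≤ |t0| + 2 := by
    have := le_abs_self t0
    linarith
  obtain ⟨b, hb, hfb⟩ := intermediate_value_Icc hle hc.continuousOn
    (show (1 : ℝ) ∈ Icc (f (l.1 + t0 • l.2)) (f (l.1 + (|t0| + 2) • l.2)) from ⟨ht0.le, hbig.le⟩)
  have hfb' : f (l.1 + b • l.2) = 1 := hfb
  have hne : t0 ≠ b := by
    rintro rfl
    rw [hfb'] at ht0
    exact lt_irrefl _ ht0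
  have hlt : t0 < b := lt_of_le_of_ne hb.1 hne
  refine ⟨b, hfb', ?_⟩
  have h4 := h.ge (l.1 + b • l.2) (l.1 + t0 • l.2)
  have h5 : l.1 + t0 • l.2 - (l.1 + b • l.2) = (-(b - t0)) • l.2 := by
    rw [neg_sub, sub_smul]
    abel
  rw [h5, real_inner_smul_right, hfb'] at h4
  have h8 : 0 ≤ ‖(-(b - t0)) • l.2‖ ^ 2 := by positivity
  have h9 : 0 < (b - t0) * ⟪g (l.1 + b • l.2), l.2⟫ := by linarith
  exact (mul_pos_iff_of_pos_left (by linarith)).1 h9

/-- the reflected direction -/
noncomputable def refl' (g : Euc n → Euc n) (x v : Euc n) : Euc n :=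
  v - (2 * ⟪v, ‖g x‖⁻¹ • g x⟫) • (‖g x‖⁻¹ • g x)

theorem billiardMap_eq (h : Good f g) {l : Euc n × Euc n} {b : ℝ}
    (h1 : f (l.1 + b • l.2) = 1) (h2 : 0 < ⟪g (l.1 + b • l.2), l.2⟫) :
    billiardMap (Body f) l =
      lineThrough (l.1 + b • l.2) (refl' g (l.1 + b • l.2) l.2) := by
  unfold billiardMap
  rw [exit_eq h h1 h2, h.outerNormal_eq h1]
  rfl

theorem refl_facts (h : Good f g) {x v : Euc n} (hx : f x = 1) :
    ‖refl' g x v‖ = ‖v‖ ∧ ⟪g x, refl' g x v⟫ = -⟪g x, v⟫ ∧
      refl' g x (-refl' g x v) = -v := by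
  have h0 : 0 < ‖g x‖ := norm_pos_iff.2 (h.g_ne_zero hx)
  set e := ‖g x‖⁻¹ • g x with he
  have hn1 : ‖e‖ = 1 := by
    rw [he, norm_smul, norm_inv, norm_norm, inv_mul_cancel₀ h0.ne']
  have hee : ⟪e, e⟫ = 1 := by rw [real_inner_self_eq_norm_sq, hn1]; norm_num
  have hg : g x = ‖g x‖ • e := by
    rw [he, smul_smul, mul_inv_cancel₀ h0.ne', one_smul]
  have hr : ∀ w, refl' g x w = w - (2 * ⟪w, e⟫) • e := fun w => rfl
  refine ⟨?_, ?_, ?_⟩
  · have : ‖refl' g x v‖ ^ 2 = ‖v‖ ^ 2 := by
      rw [hr, norm_sub_sq_real, real_inner_smul_right, norm_smul, hn1, Real.norm_eq_abs, mul_one,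
        sq_abs]
      ring
    exact (sq_eq_sq₀ (norm_nonneg _) (norm_nonneg _)).1 this
  · have q1 : ⟪e, refl' g x v⟫ = -⟪e, v⟫ := by
      rw [hr, inner_sub_right, real_inner_smul_right, hee, real_inner_comm v e]
      ring
    have q2 : ∀ w, ⟪g x, w⟫ = ‖g x‖ * ⟪e, w⟫ := by
      intro w
      rw [he, real_inner_smul_left, ← mul_assoc, mul_inv_cancel₀ h0.ne', one_mul]
    rw [q2, q2, q1]
    ring
  · rw [hr, hr, inner_neg_left, inner_sub_left, real_inner_smul_left, hee]
    have : -(v - (2 * ⟪v, e⟫) • e) - (2 * -(⟪v, e⟫ - 2 * ⟪v, e⟫ * 1)) • e = -v := by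
      module
    exact this

theorem lineThrough_mem (h : Good f g) {x v : Euc n} (hx : f x = 1) (hv : ‖v‖ = 1)
    (hg : ⟪g x, v⟫ < 0) : lineThrough x v ∈ lines (Body f) := by
  rw [mem_lines h]
  refine ⟨hv, ?_, ?_⟩
  · unfold lineThrough
    rw [inner_sub_left, real_inner_smul_left, real_inner_self_eq_norm_sq, hv]
    ring
  · obtain ⟨s, _, hs⟩ := h.exists_lt hg
    refine ⟨⟪x, v⟫ + s, ?_⟩
    unfold lineThrough
    have : x - ⟪x, v⟫ • v + (⟪x, v⟫ + s) • v = x + s • v := by module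
    show f (x - ⟪x, v⟫ • v + (⟪x, v⟫ + s) • v) < 1
    rw [this, ← hx]
    exact hs

theorem lineThrough_self {l : Euc n × Euc n} (hv : ‖l.2‖ = 1) (hp : ⟪l.1, l.2⟫ = 0) (b : ℝ) :
    lineThrough (l.1 + b • l.2) l.2 = l := by
  unfold lineThrough
  rw [inner_add_left, real_inner_smul_left, real_inner_self_eq_norm_sq, hv, hp]
  ext1
  · show l.1 + b • l.2 - (0 + b * 1 ^ 2) • l.2 = l.1
    module
  · rfl

theorem map_mem (h : Good f g) {l : Euc n × Euc n} (hl : l ∈ lines (Body f)) :
    billiardMap (Body f) l ∈ lines (Body f) := by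
  obtain ⟨b, h1, h2⟩ := exists_exit h hl
  rw [billiardMap_eq h h1 h2]
  obtain ⟨r1, r2, -⟩ := refl_facts h (v := l.2) h1
  exact lineThrough_mem h h1 (by rw [r1]; exact hl.1) (by rw [r2]; linarith)

theorem map_rev_map (h : Good f g) {l : Euc n × Euc n} (hl : l ∈ lines (Body f)) :
    billiardMap (Body f) (rev (billiardMap (Body f) l)) = rev l := by
  obtain ⟨b, h1, h2⟩ := exists_exit h hl
  rw [billiardMap_eq h h1 h2]
  obtain ⟨r1, r2, r3⟩ := refl_facts h (v := l.2) h1
  set x := l.1 + b • l.2 with hx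
  set w := refl' g x l.2 with hw
  have e1 : rev (lineThrough x w) = lineThrough x (-w) := by
    unfold rev lineThrough
    ext1
    · show x - ⟪x, w⟫ • w = x - ⟪x, -w⟫ • (-w)
      rw [inner_neg_right]
      module
    · rfl
  have e2 : (lineThrough x (-w)).1 + ⟪x, -w⟫ • (lineThrough x (-w)).2 = x := by
    unfold lineThrough
    show x - ⟪x, -w⟫ • (-w) + ⟪x, -w⟫ • (-w) = x
    module
  rw [e1, billiardMap_eq h (l := lineThrough x (-w)) (b := ⟪x, -w⟫)]
  · rw [e2]
    show lineThrough x (refl' g x (-w)) = rev l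
    rw [r3]
    have e3 := lineThrough_self (l := rev l) (by simpa [rev] using hl.1)
      (by simpa [rev] using hl.2.1) (-b)
    have e4 : (rev l).1 + (-b) • (rev l).2 = x := by
      rw [hx]
      unfold rev
      show l.1 + (-b) • (-l.2) = l.1 + b • l.2
      module
    rw [e4] at e3
    exact e3
  · rw [e2]
    exact h1
  · rw [e2]
    show 0 < ⟪g x, -w⟫
    rw [inner_neg_right, r2]
    linarith

theorem bijOn (h : Good f g) :
    Set.BijOn (billiardMap (Body f)) (lines (Body f)) (lines (Body f)) := by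
  refine ⟨fun l hl => map_mem h hl, ?_, ?_⟩
  · intro l hl l' hl' he
    have h1 := map_rev_map h hl
    have h2 := map_rev_map h hl'
    have he' : billiardMap (Body f) l = billiardMap (Body f) l' := he
    rw [he', h2] at h1
    rw [← rev_rev l, ← h1, rev_rev]
  · intro l hl
    refine ⟨rev (billiardMap (Body f) (rev l)), rev_mem h (map_mem h (rev_mem h hl)), ?_⟩
    rw [map_rev_map h (rev_mem h hl), rev_rev]

end General

/-! ### The angular momentum -/

/-- the angular momentum in the plane of the coordinates `i`, `j` -/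
def ang (i j : Fin n) (l : Euc n × Euc n) : ℝ := l.1 i * l.2 j - l.1 j * l.2 i

theorem ang_line (i j : Fin n) (x v : Euc n) (s : ℝ) : ang i j (x + s • v, v) = ang i j (x, v) := by
  unfold ang
  simp only [PiLp.add_apply, PiLp.smul_apply, smul_eq_mul]
  ring

theorem ang_lineThrough (i j : Fin n) (x v : Euc n) :
    ang i j (lineThrough x v) = ang i j (x, v) := by
  unfold lineThrough
  rw [← ang_line i j x v (-⟪x, v⟫), neg_smul, ← sub_eq_add_neg]

theorem ang_rev (i j : Fin n) (l : Euc n × Euc n) : ang i j (rev l) = -ang i j l := by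
  unfold ang rev
  simp only [PiLp.neg_apply]
  ring

theorem ang_map {i j k : Fin n} (hi : i ≠ k) (hj : j ≠ k) {l : Euc n × Euc n}
    (hl : l ∈ lines (Body (fi k))) : ang i j (billiardMap (Body (fi k)) l) = ang i j l := by
  have h := goodi k
  obtain ⟨b, h1, h2⟩ := exists_exit h hl
  rw [billiardMap_eq h h1 h2, ang_lineThrough]
  set x := l.1 + b • l.2 with hx
  have h3 : ang i j l = ang i j (x, l.2) := by
    rw [hx, ang_line]
  rw [h3]
  unfold ang refl' gi
  simp only [PiLp.sub_apply, PiLp.smul_apply, PiLp.add_apply, smul_eq_mul,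
    PiLp.single_apply, if_neg hi, if_neg hj]
  ring

theorem contDiff_ang (i j : Fin n) (c : ℝ) :
    ContDiff ℝ ∞ fun l : Euc n × Euc n => ang i j l - c := by
  unfold ang
  fun_prop

theorem main {n : ℕ} (hn : 3 ≤ n) : ∃ Ω : Set (Euc n), IsTable Ω ∧ ¬ IsEllipsoid Ω ∧
    (∀ x ∈ frontier Ω, ∃! ν, IsOuterNormal Ω x ν) ∧
    Set.BijOn (billiardMap Ω) (lines Ω) (lines Ω) ∧
    ∃ S : Set (Euc n × Euc n), IsInvariantHypersurface Ω S := by
  let i : Fin n := ⟨0, by omega⟩
  let j : Fin n := ⟨1, by omega⟩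
  let k : Fin n := ⟨2, by omega⟩
  have hij : i ≠ j := by simp [i, j]
  have hik : i ≠ k := by simp [i, k]
  have hjk : j ≠ k := by simp [j, k]
  have h := goodi k
  refine ⟨Body (fi k), h.isTable, not_elli hik, ?_, bijOn h, ?_⟩
  · intro x hx
    rw [h.frontier_body] at hx
    exact ⟨_, (h.isOuterNormal_iff hx).2 rfl, fun ν hν => (h.isOuterNormal_iff hx).1 hν⟩
  · refine ⟨{l | l ∈ lines (Body (fi k)) ∧ ang i j l = 1 / 2}, ?_, fun l hl => hl.1, ?_, ?_, ?_⟩
    · refine ⟨((1 / 2 : ℝ) • EuclideanSpace.single i (1 : ℝ), EuclideanSpace.single j (1 : ℝ)),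
        ?_, ?_⟩
      · rw [mem_lines h]
        refine ⟨by simp, ?_, 0, ?_⟩
        · rw [real_inner_smul_left, EuclideanSpace.inner_single_left]
          simp [hij]
        · unfold fi
          simp [norm_smul, hik]
          norm_num
      · unfold ang
        simp [hij, hij.symm]
    · refine ⟨{l | ang i j l = 1 / 2}, ?_, ?_⟩
      · refine isClosed_eq ?_ continuous_const
        have := (contDiff_ang i j 0).continuous
        simpa using this
      · ext l
        rfl
    · rintro l ⟨hl, hc⟩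
      refine ⟨fun l => ang i j l - 1 / 2, contDiff_ang i j (1 / 2), ?_, (l.1, 0), ?_, ?_⟩
      · refine Eventually.of_forall fun l' hl' => ?_
        constructor
        · rintro ⟨_, h2⟩
          show ang i j l' - 1 / 2 = 0
          rw [h2]
          ring
        · intro h2
          exact ⟨hl', by linarith⟩
      · refine ⟨by simp, ?_⟩
        show ⟪l.1, l.2⟫ + ⟪l.1, (0 : Euc n)⟫ = 0
        rw [inner_zero_right, add_zero]
        exact hl.2.1
      · have hd : HasFDerivAt (fun l => ang i j l - 1 / 2)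
            (fderiv ℝ (fun l => ang i j l - 1 / 2) l) l :=
          ((contDiff_ang i j (1 / 2)).differentiable (by simp)).differentiableAt.hasFDerivAt
        have hl2 : HasDerivAt (fun s : ℝ => l + s • ((l.1, 0) : Euc n × Euc n)) (l.1, 0) 0 := by
          simpa using ((hasDerivAt_id (0 : ℝ)).smul_const ((l.1, 0) : Euc n × Euc n)).const_add l
        have hc3 : HasDerivAt (fun s : ℝ => ang i j (l + s • ((l.1, 0) : Euc n × Euc n)) - 1 / 2)
            (fderiv ℝ (fun l => ang i j l - 1 / 2) l (l.1, 0)) 0 :=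
          HasFDerivAt.comp_hasDerivAt (x := (0 : ℝ))
            (f := fun s : ℝ => l + s • ((l.1, 0) : Euc n × Euc n))
            (l := fun l => ang i j l - 1 / 2)
            (l' := fderiv ℝ (fun l => ang i j l - 1 / 2) l) (by simpa using hd) hl2
        have hc4 : HasDerivAt (fun s : ℝ => ang i j (l + s • ((l.1, 0) : Euc n × Euc n)) - 1 / 2)
            (ang i j l) 0 := by
          have e : (fun s : ℝ => ang i j (l + s • ((l.1, 0) : Euc n × Euc n)) - 1 / 2) =
              fun s => (ang i j l - 1 / 2) + s * ang i j l := by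
            ext s
            unfold ang
            simp only [Prod.fst_add, Prod.snd_add, Prod.smul_fst, Prod.smul_snd, smul_zero,
              add_zero, PiLp.add_apply, PiLp.smul_apply, smul_eq_mul]
            ring
          rw [e]
          simpa using ((hasDerivAt_id (0 : ℝ)).mul_const (ang i j l)).const_add
            (ang i j l - 1 / 2)
        rw [hc3.unique hc4, hc]
        norm_num
    · apply Subset.antisymm
      · rintro _ ⟨l, ⟨hl, hc⟩, rfl⟩
        exact ⟨map_mem h hl, by rw [ang_map hik hjk hl, hc]⟩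
      · rintro l ⟨hl, hc⟩
        refine ⟨rev (billiardMap (Body (fi k)) (rev l)),
          ⟨rev_mem h (map_mem h (rev_mem h hl)), ?_⟩, ?_⟩
        · rw [ang_rev, ang_map hik hjk (rev_mem h hl), ang_rev, hc]
          norm_num
        · rw [map_rev_map h (rev_mem h hl), rev_rev]

end Q52.Bil
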